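import Pool.Agent.V11323.Chain
import Pool.Agent.V11323.ParTree

/-!
# A tree of positive speed on which the frog model has no transient regime
-/

set_option autoImplicit false

open MeasureTheory ProbabilityTheory Filter Topology
open scoped ENNReal

namespace Pool.Agent.Results.MP_32e6ae_pr.NoTransientRegime

open Pool.Agent.V11323.Chain

/-- One step of simple random walk from `v`: a uniformly chosen neighbour. -/
noncomputable def srw {V : Type} (G : SimpleGraph V) [G.LocallyFinite] (v : V) : PMF V :=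
  if h : (G.neighborFinset v).Nonempty then PMF.uniformOfFinset (G.neighborFinset v) h
  else PMF.pure v

/-- The randomness of the frog model: independently for each vertex `v`, a Poisson number
`(ω v).1`, and a sequence `(ω v).2 0, (ω v).2 1, …` of independent sequences of random maps, the
`i`-th of which drives the simple random walk of the `i`-th particle of `v`. -/
noncomputable def frogLaw {V : Type} [MeasurableSpace V] (G : SimpleGraph V) [G.LocallyFinite]
    (lam : NNReal) : Measure (V → ℕ × (ℕ → ℕ → V → V)) :=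
  Measure.infinitePi (fun _ : V => (poissonMeasure lam).prod
    (Measure.infinitePi (fun _ : ℕ => drive (srw G))))

open Classical in
/-- The number of particles of `v`: one at the root `o`, and `(ω v).1` at the other vertices. -/
noncomputable def num {V : Type} (o : V) (ω : V → ℕ × (ℕ → ℕ → V → V)) (v : V) : ℕ :=
  if v = o then 1 else (ω v).1

/-- The vertices whose particles are eventually active: the root, and every vertex visited by a
particle of such a vertex. -/
inductive Active {V : Type} (o : V) (ω : V → ℕ × (ℕ → ℕ → V → V)) : V → Prop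
  | root : Active o ω o
  | visit (v : V) (i t : ℕ) : Active o ω v → i < num o ω v →
      Active o ω (walk v ((ω v).2 i) t)

/-- The particles `(v, i)` that are eventually active and visit the root. -/
def visitors {V : Type} (o : V) (ω : V → ℕ × (ℕ → ℕ → V → V)) : Set (V × ℕ) :=
  {p | Active o ω p.1 ∧ p.2 < num o ω p.1 ∧ ∃ t, walk p.1 ((ω p.1).2 p.2) t = o}

/-- The frog model with Poisson(`lam`) particles per non-root vertex is transient. -/
def FrogTransient {V : Type} [MeasurableSpace V] (G : SimpleGraph V) [G.LocallyFinite] (o : V)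
    (lam : NNReal) : Prop :=
  ∀ᵐ ω ∂(frogLaw G lam), (visitors o ω).Finite

section Tree

/-- the vertices: a binary tree `tr l` and a ray `ray j` -/
inductive Vt
  | tr (l : List Bool)
  | ray (j : ℕ)
  deriving DecidableEq

open Vt

instance : MeasurableSpace Vt := ⊤

instance : DiscreteMeasurableSpace Vt := ⟨fun _ => trivial⟩

instance : Countable Vt := by
  have h : Function.Injective (fun v : Vt => match v with
      | tr l => (Sum.inl l : List Bool ⊕ ℕ)
      | ray j => Sum.inr j) := by
    intro u v h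
    rcases u with l | j <;> rcases v with m | k <;> simp_all
  exact h.countable

instance : Infinite Vt := Infinite.of_injective ray (fun j k h => by simpa using h)

/-- neighbours -/
def nb : Vt → Finset Vt
  | tr [] => {tr [true], tr [false], ray 0}
  | tr (b :: l) => {tr l, tr (true :: b :: l), tr (false :: b :: l)}
  | ray 0 => {tr [], ray 1}
  | ray (j + 1) => {ray j, ray (j + 2)}

/-- parent -/
def par : Vt → Vt
  | tr [] => tr []
  | tr (_ :: l) => tr l
  | ray 0 => tr []
  | ray (j + 1) => ray j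

/-- depth -/
def dep : Vt → ℕ
  | tr l => l.length
  | ray j => j + 1

/-- the tree -/
def G : SimpleGraph Vt := Pool.Agent.V11323.ParTree.pg par

lemma adj_iff (u v : Vt) : G.Adj u v ↔ v ∈ nb u := by
  rcases u with (_ | ⟨b, l⟩) | (_ | j) <;> rcases v with (_ | ⟨c, m⟩) | (_ | k) <;>
    simp [G, Pool.Agent.V11323.ParTree.pg, nb, par]
  · cases c <;> simp
  · constructor
    · rintro ⟨_, h | h⟩
      · exact Or.inl h.symm
      · right; cases c <;> simp [h]
    · rintro (h | ⟨rfl, h⟩ | ⟨rfl, h⟩)
      · subst h; simp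
      · subst h; simp
      · subst h; simp
  · exact eq_comm
  · omega

lemma par_o : par (tr []) = tr [] := rfl

lemma dep_o : dep (tr []) = 0 := rfl

lemma dep_par (v : Vt) (h : v ≠ tr []) : dep (par v) + 1 = dep v := by
  rcases v with (_ | ⟨b, l⟩) | (_ | j)
  · exact absurd rfl h
  all_goals simp [par, dep]

lemma isTree : G.IsTree := Pool.Agent.V11323.ParTree.isTree par_o dep_o dep_par

lemma dist_eq (v : Vt) : G.dist (tr []) v = dep v :=
  Pool.Agent.V11323.ParTree.dist_eq par_o dep_o dep_par v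

noncomputable instance : G.LocallyFinite := fun v =>
  Fintype.ofFinset (nb v) (fun w => by rw [SimpleGraph.mem_neighborSet, adj_iff])

lemma nbF (v : Vt) : G.neighborFinset v = nb v := by
  ext w; rw [SimpleGraph.mem_neighborFinset, adj_iff]

lemma nb_ne (v : Vt) : (nb v).Nonempty := by
  rcases v with (_ | ⟨b, l⟩) | (_ | j) <;> simp [nb]

lemma srw_apply (v w : Vt) : srw G v w = if w ∈ nb v then ((nb v).card : ℝ≥0∞)⁻¹ else 0 := by
  unfold srw
  have h : (G.neighborFinset v).Nonempty := by rw [nbF]; exact nb_ne v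
  rw [dif_pos h, PMF.uniformOfFinset_apply]
  simp only [nbF]

lemma srw_sum (v : Vt) (f : Vt → ℝ≥0∞) :
    ∑' w, srw G v w * f w = ((nb v).card : ℝ≥0∞)⁻¹ * ∑ w ∈ nb v, f w := by
  rw [tsum_eq_sum (s := nb v)]
  · rw [Finset.mul_sum]
    refine Finset.sum_congr rfl fun w hw => ?_
    rw [srw_apply, if_pos hw]
  · intro w hw
    rw [srw_apply, if_neg hw, zero_mul]

lemma sum_o (f : Vt → NNReal) : ∑' w, srw G (tr []) w * (f w : ℝ≥0∞) =
    ((3⁻¹ * (f (tr [true]) + f (tr [false]) + f (ray 0)) : NNReal) : ℝ≥0∞) := by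
  rw [srw_sum]
  have h1 : (nb (tr [])).card = 3 := by decide
  have h2 : ∑ w ∈ nb (tr []), (f w : ℝ≥0∞) = f (tr [true]) + (f (tr [false]) + f (ray 0)) := by
    unfold nb
    rw [Finset.sum_insert (by decide), Finset.sum_insert (by decide), Finset.sum_singleton]
  rw [h1, h2]
  push_cast
  ring

lemma sum_tr (b : Bool) (l : List Bool) (f : Vt → NNReal) :
    ∑' w, srw G (tr (b :: l)) w * (f w : ℝ≥0∞) =
    ((3⁻¹ * (f (tr l) + f (tr (true :: b :: l)) + f (tr (false :: b :: l))) : NNReal) :
      ℝ≥0∞) := by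
  rw [srw_sum]
  have hl : ∀ c d : Bool, l ≠ c :: d :: l := by
    intro c d h
    have := congrArg List.length h
    simp only [List.length_cons] at this
    omega
  have hA : tr l ∉ ({tr (true :: b :: l), tr (false :: b :: l)} : Finset Vt) := by
    simp [hl]
  have hB : tr (true :: b :: l) ∉ ({tr (false :: b :: l)} : Finset Vt) := by simp
  have h1 : (nb (tr (b :: l))).card = 3 := by
    unfold nb
    rw [Finset.card_insert_of_notMem hA, Finset.card_insert_of_notMem hB, Finset.card_singleton]
  have h2 : ∑ w ∈ nb (tr (b :: l)), (f w : ℝ≥0∞) =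
      f (tr l) + (f (tr (true :: b :: l)) + f (tr (false :: b :: l))) := by
    unfold nb
    rw [Finset.sum_insert hA, Finset.sum_insert hB, Finset.sum_singleton]
  rw [h1, h2]
  push_cast
  ring

lemma sum_ray0 (f : Vt → NNReal) : ∑' w, srw G (ray 0) w * (f w : ℝ≥0∞) =
    ((2⁻¹ * (f (tr []) + f (ray 1)) : NNReal) : ℝ≥0∞) := by
  rw [srw_sum]
  have h1 : (nb (ray 0)).card = 2 := by decide
  have h2 : ∑ w ∈ nb (ray 0), (f w : ℝ≥0∞) = f (tr []) + f (ray 1) := by
    unfold nb
    rw [Finset.sum_insert (by decide), Finset.sum_singleton]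
  rw [h1, h2]
  push_cast
  ring

lemma sum_ray (j : ℕ) (f : Vt → NNReal) : ∑' w, srw G (ray (j + 1)) w * (f w : ℝ≥0∞) =
    ((2⁻¹ * (f (ray j) + f (ray (j + 2))) : NNReal) : ℝ≥0∞) := by
  rw [srw_sum]
  have h0 : ray j ∉ ({ray (j + 2)} : Finset Vt) := by simp
  have h1 : (nb (ray (j + 1))).card = 2 := by
    unfold nb
    rw [Finset.card_insert_of_notMem h0, Finset.card_singleton]
  have h2 : ∑ w ∈ nb (ray (j + 1)), (f w : ℝ≥0∞) = f (ray j) + f (ray (j + 2)) := by
    unfold nb
    rw [Finset.sum_insert h0, Finset.sum_singleton]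
  rw [h1, h2]
  push_cast
  ring

end Tree

section Visits

open Vt

/-- number of visits of the root is finite -/
lemma finite_visits (x : Vt) :
    ∀ᵐ ω ∂(drive (srw G)), ∀ᶠ n in atTop, walk x ω n ≠ tr [] := by
  set f : Vt → NNReal := fun v => match v with
    | tr l => (2⁻¹) ^ l.length
    | ray _ => 1 with hf
  set k : Vt → NNReal := fun v => if v = tr [] then 3⁻¹ else 0 with hk
  have h1 : ∑' n, ∫⁻ ω, (k (walk x ω n) : ℝ≥0∞) ∂(drive (srw G)) ≤ f x := by
    refine walk_lyap (srw G) x (fun v => f v) (fun v => k v) ?_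
    intro v
    rcases v with (_ | ⟨b, l⟩) | (_ | j)
    · rw [sum_o, ← ENNReal.coe_add, ENNReal.coe_le_coe, ← NNReal.coe_le_coe]
      simp only [hf, hk]
      push_cast
      norm_num
    · rw [sum_tr, ← ENNReal.coe_add, ENNReal.coe_le_coe, ← NNReal.coe_le_coe]
      simp only [hf, hk]
      rw [if_neg (by simp)]
      simp only [List.length_cons]
      push_cast
      ring_nf
      rfl
    · rw [sum_ray0, ← ENNReal.coe_add, ENNReal.coe_le_coe, ← NNReal.coe_le_coe]
      simp only [hf, hk]
      rw [if_neg (by simp)]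
      push_cast
      norm_num
    · rw [sum_ray, ← ENNReal.coe_add, ENNReal.coe_le_coe, ← NNReal.coe_le_coe]
      simp only [hf, hk]
      rw [if_neg (by simp)]
      push_cast
      norm_num
  have h2 : ∀ n, ∫⁻ ω, (k (walk x ω n) : ℝ≥0∞) ∂(drive (srw G)) =
      3⁻¹ * (drive (srw G)) {ω | walk x ω n = tr []} := by
    intro n
    have hm : MeasurableSet {ω : ℕ → Vt → Vt | walk x ω n = tr []} :=
      (meas_walk x n) (measurableSet_singleton _)
    rw [← lintegral_indicator_const hm]
    refine lintegral_congr fun ω => ?_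
    simp only [hk, Set.indicator_apply, Set.mem_ofPred_eq]
    split_ifs
    · rw [ENNReal.coe_inv (by norm_num)]; simp
    · simp
  simp only [h2] at h1
  rw [ENNReal.tsum_mul_left] at h1
  have h3 : ∑' n, (drive (srw G)) {ω | walk x ω n = tr []} ≠ ⊤ := by
    intro h
    rw [h, ENNReal.mul_top (by simp)] at h1
    exact absurd h1 (by simp)
  have h4 := measure_setOfPred_frequently_eq_zero (p := fun n ω => walk x ω n = tr []) h3
  rw [ae_iff]
  refine measure_mono_null ?_ h4
  intro ω hω
  simp only [Set.mem_ofPred_eq, not_eventually, not_not] at hω ⊢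
  exact hω

/-- interior vertices -/
def inner (M : ℕ) (x : Vt) : Bool := match x with
  | tr _ => false
  | ray j => decide (j + 1 < M)

/-- the walk stopped when it leaves the segment of the ray strictly between the root and
`ray (M - 1)` -/
def stp (M : ℕ) (x : Vt) (ω : ℕ → Vt → Vt) (n : ℕ) : Vt :=
  aug (fun v : Vt => v) (fun v y => if inner M v then y else v) x ω n

/-- relation between the stopped walk and the walk -/
lemma stp_spec (M : ℕ) (x : Vt) (ω : ℕ → Vt → Vt) (n : ℕ) :
    stp M x ω n = walk x ω n ∨ (inner M (stp M x ω n) = false ∧ ∃ m, stp M x ω n = walk x ω m) := by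
  induction n with
  | zero => left; rfl
  | succ n ih =>
    unfold stp at ih ⊢
    rw [aug]
    set w := aug (fun v : Vt => v) (fun v y => if inner M v then y else v) x ω n with hw
    rcases hi : inner M w with _ | _
    · right
      simp only [Bool.false_eq_true, if_false]
      refine ⟨hi, ?_⟩
      rcases ih with h | ⟨_, h⟩
      · exact ⟨n, h⟩
      · exact h
    · left
      simp only [if_true]
      rcases ih with h | ⟨h, _⟩
      · rw [walk, ← h]
      · rw [hi] at h; exact absurd h (by simp)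

lemma stp_visit (M : ℕ) (x y : Vt) (ω : ℕ → Vt → Vt) (n : ℕ) (h : stp M x ω n = y) :
    ∃ m, walk x ω m = y := by
  rcases stp_spec M x ω n with h1 | ⟨_, m, h1⟩
  · exact ⟨n, by rw [← h1, h]⟩
  · exact ⟨m, by rw [← h1, h]⟩

lemma meas_stp (M : ℕ) (x : Vt) (n : ℕ) : Measurable (fun ω => stp M x ω n) :=
  meas_aug' _ _ x n

/-- gambler's ruin: the interior is left -/
lemma inner_tendsto (M : ℕ) (x : Vt) :
    Tendsto (fun n => drive (srw G) {ω | inner M (stp M x ω n) = true}) atTop (𝓝 0) := by
  set f : Vt → NNReal := fun v => match v with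
    | tr _ => 0
    | ray j => ((j + 1 : ℕ) : NNReal) * ((M - (j + 1) : ℕ) : NNReal) with hf
  set k : Vt → NNReal := fun v => if inner M v then 1 else 0 with hk
  have h1 : ∑' n, ∫⁻ ω, (k (stp M x ω n) : ℝ≥0∞) ∂(drive (srw G)) ≤ f x := by
    refine aug_lyap (srw G) (fun v : Vt => v) (fun v y => if inner M v then y else v) x
      (fun v => f v) (fun v => k v) ?_
    intro v
    rcases hi : inner M v with _ | _
    · simp only [Bool.false_eq_true, if_false]
      rw [ENNReal.tsum_mul_right, PMF.tsum_coe, one_mul]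
      simp only [hk, hi, Bool.false_eq_true, if_false]
      simp
    · simp only [if_true]
      rcases v with l | (_ | j)
      · simp [inner] at hi
      · simp only [inner, decide_eq_true_eq] at hi
        rw [sum_ray0, ← ENNReal.coe_add, ENNReal.coe_le_coe, ← NNReal.coe_le_coe]
        obtain ⟨M', rfl⟩ : ∃ M', M = M' + 2 := ⟨M - 2, by omega⟩
        simp only [hf, hk, inner]
        have e1 : M' + 2 - (0 + 1) = M' + 1 := by omega
        have e2 : M' + 2 - (1 + 1) = M' := by omega
        rw [if_pos (by simp), e1, e2]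
        push_cast; linarith
      · simp only [inner, decide_eq_true_eq] at hi
        rw [sum_ray, ← ENNReal.coe_add, ENNReal.coe_le_coe, ← NNReal.coe_le_coe]
        obtain ⟨M', rfl⟩ : ∃ M', M = M' + (j + 3) := ⟨M - (j + 3), by omega⟩
        simp only [hf, hk, inner]
        have e1 : M' + (j + 3) - (j + 1) = M' + 2 := by omega
        have e2 : M' + (j + 3) - (j + 1 + 1) = M' + 1 := by omega
        have e3 : M' + (j + 3) - (j + 2 + 1) = M' := by omega
        rw [if_pos (by simp only [decide_eq_true_eq]; omega), e1, e2, e3]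
        push_cast; nlinarith
  have h2 : ∀ n, ∫⁻ ω, (k (stp M x ω n) : ℝ≥0∞) ∂(drive (srw G)) =
      (drive (srw G)) {ω | inner M (stp M x ω n) = true} := by
    intro n
    have hm : MeasurableSet {ω : ℕ → Vt → Vt | inner M (stp M x ω n) = true} :=
      (meas_stp M x n) (MeasurableSet.of_discrete (s := {v | inner M v = true}))
    rw [← lintegral_indicator_one hm]
    refine lintegral_congr fun ω => ?_
    simp only [hk, Set.indicator_apply, Set.mem_ofPred_eq]
    split_ifs <;> simp
  simp only [h2] at h1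
  exact ENNReal.tendsto_atTop_zero_of_tsum_ne_top
    (ne_top_of_le_ne_top ENNReal.coe_ne_top h1)

lemma stp_range {M : ℕ} {x : Vt} {j : ℕ} (hx : x = ray j) (hj : j + 1 < M)
    (ω : ℕ → Vt → Vt) (hω : ∀ n y, ω n y ∈ nb y) (n : ℕ) :
    inner M (stp M x ω n) = true ∨ stp M x ω n = tr [] ∨ stp M x ω n = ray (M - 1) := by
  induction n with
  | zero => left; subst hx; simp [stp, aug, inner, hj]
  | succ n ih =>
    unfold stp at ih ⊢
    rw [aug]
    set w := aug (fun v : Vt => v) (fun v y => if inner M v then y else v) x ω n with hw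
    rcases hi : inner M w with _ | _
    · simp only [Bool.false_eq_true, if_false]
      rcases ih with h | h
      · rw [hi] at h; exact absurd h (by simp)
      · exact Or.inr h
    · simp only [if_true]
      have h2 := hω n w
      rcases w with l | (_ | k)
      · simp [inner] at hi
      · simp only [inner, decide_eq_true_eq] at hi
        simp only [nb, Finset.mem_insert, Finset.mem_singleton] at h2
        rcases h2 with h2 | h2
        · right; left; exact h2
        · rw [h2]
          by_cases h3 : 1 + 1 < M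
          · left; simp [inner, h3]
          · right; right; exact congrArg ray (by omega)
      · simp only [inner, decide_eq_true_eq] at hi
        simp only [nb, Finset.mem_insert, Finset.mem_singleton] at h2
        rcases h2 with h2 | h2
        · rw [h2]; left; simp only [inner, decide_eq_true_eq]; omega
        · rw [h2]
          by_cases h3 : k + 2 + 1 < M
          · left; simp [inner, h3]
          · right; right; exact congrArg ray (by omega)

lemma ae_nb : ∀ᵐ ω ∂(drive (srw G)), ∀ n y, ω n y ∈ nb y := by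
  rw [ae_all_iff]
  intro n
  rw [ae_all_iff]
  intro y
  rw [ae_iff]
  have h1 := drive_eval (srw G) n y (Set.indicator {v | v ∉ nb y} 1)
  have hm : MeasurableSet {ω : ℕ → Vt → Vt | ¬ ω n y ∈ nb y} := by
    have h3 : Measurable (fun ω : ℕ → Vt → Vt => ω n y) :=
      (measurable_pi_apply y).comp (measurable_pi_apply n)
    exact h3 (MeasurableSet.of_discrete (s := {v | v ∉ nb y}))
  rw [← lintegral_indicator_one hm]
  have h2 : ∫⁻ ω, Set.indicator {ω : ℕ → Vt → Vt | ¬ ω n y ∈ nb y} 1 ω ∂(drive (srw G)) =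
      ∫⁻ ω, Set.indicator {v | v ∉ nb y} (1 : Vt → ℝ≥0∞) (ω n y) ∂(drive (srw G)) := rfl
  rw [h2, h1, ENNReal.tsum_eq_zero]
  intro v
  by_cases hv : v ∈ nb y
  · simp [hv]
  · rw [srw_apply, if_neg hv, zero_mul]

/-- gambler's ruin: value of the linear function -/
lemma ruin (M j : ℕ) (hj : j + 1 < M) (n : ℕ) :
    ((j + 1 : ℕ) : ℝ≥0∞) / (M : ℝ≥0∞) ≤ drive (srw G) {ω | stp M (ray j) ω n = ray (M - 1)} +
      drive (srw G) {ω | inner M (stp M (ray j) ω n) = true} ∧
    ((M - (j + 1) : ℕ) : ℝ≥0∞) / (M : ℝ≥0∞) ≤ drive (srw G) {ω | stp M (ray j) ω n = tr []} +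
      drive (srw G) {ω | inner M (stp M (ray j) ω n) = true} := by
  have hM : (M : NNReal) ≠ 0 := by
    rw [Ne, Nat.cast_eq_zero]; omega
  have hMr : (M : ℝ) ≠ 0 := by
    rw [Ne, Nat.cast_eq_zero]; omega
  have gen : ∀ (f : Vt → NNReal) (t : Vt), (∀ i, i + 2 < M →
      2 * f (ray (i + 1)) = f (ray i) + f (ray (i + 2))) → (2 * f (ray 0) = f (tr []) + f (ray 1)) → (f t = 1) →
      (∀ i, i + 1 < M → f (ray i) ≤ 1) → (∀ v, v = tr [] ∨ v = ray (M - 1) → v ≠ t → f v = 0) →
      (f (ray j) : ℝ≥0∞) ≤ drive (srw G) {ω | stp M (ray j) ω n = t} +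
      drive (srw G) {ω | inner M (stp M (ray j) ω n) = true} := by
    intro f t hf1 hf2 hf3 hf4 hf5
    have h1 := aug_mart (srw G) (fun v : Vt => v) (fun v y => if inner M v then y else v)
      (ray j) (fun v => f v) (by
        intro v
        rcases hi : inner M v with _ | _
        · simp only [Bool.false_eq_true, if_false]
          rw [ENNReal.tsum_mul_right, PMF.tsum_coe, one_mul]
        · simp only [if_true]
          rcases v with l | (_ | i)
          · simp [inner] at hi
          · rw [sum_ray0, ← hf2, ← mul_assoc, inv_mul_cancel₀ (by norm_num), one_mul]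
          · simp only [inner, decide_eq_true_eq] at hi
            rw [sum_ray, ← hf1 i hi, ← mul_assoc, inv_mul_cancel₀ (by norm_num), one_mul]) n
    rw [← h1]
    have hm1 : MeasurableSet {ω : ℕ → Vt → Vt | stp M (ray j) ω n = t} :=
      (meas_stp M (ray j) n) (measurableSet_singleton _)
    have hm2 : MeasurableSet {ω : ℕ → Vt → Vt | inner M (stp M (ray j) ω n) = true} :=
      (meas_stp M (ray j) n) (MeasurableSet.of_discrete (s := {v | inner M v = true}))
    rw [← lintegral_indicator_one hm1, ← lintegral_indicator_one hm2, ← lintegral_add_left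
      (measurable_one.indicator hm1)]
    refine lintegral_mono_ae ?_
    filter_upwards [ae_nb] with ω hω
    have h2 := stp_range rfl hj ω hω n
    change (f (stp M (ray j) ω n) : ℝ≥0∞) ≤ _
    simp only [Set.indicator_apply, Set.mem_ofPred_eq, Pi.one_apply]
    by_cases h3 : stp M (ray j) ω n = t
    · rw [h3, hf3]; simp
    · rw [if_neg h3, zero_add]
      rcases h2 with h2 | h2
      · rw [if_pos h2]
        rcases h4 : stp M (ray j) ω n with l | i
        · rw [h4] at h2; simp [inner] at h2
        · rw [h4] at h2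
          simp only [inner, decide_eq_true_eq] at h2
          exact_mod_cast hf4 i h2
      · rw [hf5 _ h2 h3]; simp
  constructor
  · have h := gen (fun v => (dep v : NNReal) / M) (ray (M - 1)) (by
      intro i _; simp only [dep]; push_cast; ring) (by
      simp only [dep]; push_cast; simp; ring_nf) (by
      simp only [dep]
      rw [show M - 1 + 1 = M by omega]
      exact div_self hM) (by
      intro i hi
      simp only [dep]
      rw [div_le_one (by positivity)]
      exact_mod_cast (by omega : i + 1 ≤ M)) (by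
      rintro v (rfl | rfl) h2
      · simp [dep]
      · exact absurd rfl h2)
    refine le_trans (le_of_eq ?_) h
    simp only [dep]
    rw [ENNReal.coe_div hM]
    push_cast
    rfl
  · have h := gen (fun v => ((M - dep v : ℕ) : NNReal) / M) (tr []) (by
      intro i hi
      simp only [dep]
      obtain ⟨M', rfl⟩ : ∃ M', M = M' + (i + 3) := ⟨M - (i + 3), by omega⟩
      rw [show M' + (i + 3) - (i + 1 + 1) = M' + 1 by omega,
        show M' + (i + 3) - (i + 1) = M' + 2 by omega,
        show M' + (i + 3) - (i + 2 + 1) = M' by omega]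
      push_cast; ring) (by
      simp only [dep]
      obtain ⟨M', rfl⟩ : ∃ M', M = M' + 2 := ⟨M - 2, by omega⟩
      rw [show M' + 2 - (0 + 1) = M' + 1 by omega, List.length_nil, Nat.sub_zero,
        show M' + 2 - (1 + 1) = M' by omega]
      push_cast; ring) (by
      simp only [dep, List.length_nil, Nat.sub_zero]
      exact div_self hM) (by
      intro i hi
      simp only [dep]
      rw [div_le_one (by positivity)]
      exact_mod_cast (by omega : M - (i + 1) ≤ M)) (by
      rintro v (rfl | rfl) h2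
      · exact absurd rfl h2
      · simp only [dep]
        rw [show M - (M - 1 + 1) = 0 by omega]
        simp)
    refine le_trans (le_of_eq ?_) h
    simp only [dep]
    rw [ENNReal.coe_div hM]
    push_cast
    rfl

/-- the walk from `ray j` visits `ray (M - 1)` with probability at least `(j + 1) / M` -/
lemma visit_up (M j : ℕ) (hj : j + 1 < M) :
    ((j + 1 : ℕ) : ℝ≥0∞) / (M : ℝ≥0∞) ≤
      drive (srw G) {ω | ∃ m, walk (ray j) ω m = ray (M - 1)} := by
  have h1 : ∀ n, ((j + 1 : ℕ) : ℝ≥0∞) / (M : ℝ≥0∞) ≤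
      drive (srw G) {ω | ∃ m, walk (ray j) ω m = ray (M - 1)} +
      drive (srw G) {ω | inner M (stp M (ray j) ω n) = true} := by
    intro n
    refine (ruin M j hj n).1.trans ?_
    gcongr
    exact stp_visit M _ _ _ n
  have h2 := (inner_tendsto M (ray j)).const_add
    (drive (srw G) {ω | ∃ m, walk (ray j) ω m = ray (M - 1)})
  rw [add_zero] at h2
  exact ge_of_tendsto' h2 h1

/-- the walk from `ray j` visits the root almost surely -/
lemma visit_root (j : ℕ) : ∀ᵐ ω ∂(drive (srw G)), ∃ m, walk (ray j) ω m = tr [] := by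
  have h1 : ∀ M, j + 1 < M → ((M - (j + 1) : ℕ) : ℝ≥0∞) / (M : ℝ≥0∞) ≤
      drive (srw G) {ω | ∃ m, walk (ray j) ω m = tr []} := by
    intro M hj
    have h1 : ∀ n, ((M - (j + 1) : ℕ) : ℝ≥0∞) / (M : ℝ≥0∞) ≤
        drive (srw G) {ω | ∃ m, walk (ray j) ω m = tr []} +
        drive (srw G) {ω | inner M (stp M (ray j) ω n) = true} := by
      intro n
      refine (ruin M j hj n).2.trans ?_
      gcongr
      exact stp_visit M _ _ _ n
    have h2 := (inner_tendsto M (ray j)).const_add
      (drive (srw G) {ω | ∃ m, walk (ray j) ω m = tr []})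
    rw [add_zero] at h2
    exact ge_of_tendsto' h2 h1
  have h2 : (1 : ℝ≥0∞) ≤ drive (srw G) {ω | ∃ m, walk (ray j) ω m = tr []} := by
    have h3 : ∀ n : ℕ, (1 : ℝ≥0∞) - ((j + 1 : ℕ) : ℝ≥0∞) * ((n : ℕ) : ℝ≥0∞)⁻¹ ≤
        drive (srw G) {ω | ∃ m, walk (ray j) ω m = tr []} := by
      intro n
      rcases Nat.lt_or_ge (j + 1) n with hn | hn
      · refine le_trans ?_ (h1 n hn)
        have hn0 : (n : ℝ≥0∞) ≠ 0 := by rw [Ne, Nat.cast_eq_zero]; omega
        have hnt : (n : ℝ≥0∞) ≠ ⊤ := ENNReal.natCast_ne_top n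
        rw [ENNReal.le_div_iff_mul_le (Or.inl hn0) (Or.inl hnt),
          ENNReal.sub_mul (fun _ _ => hnt), one_mul, mul_assoc, ENNReal.inv_mul_cancel hn0 hnt,
          mul_one]
        exact_mod_cast le_rfl
      · have : (1 : ℝ≥0∞) - ((j + 1 : ℕ) : ℝ≥0∞) * ((n : ℕ) : ℝ≥0∞)⁻¹ = 0 := by
          rw [tsub_eq_zero_iff_le]
          rcases Nat.eq_zero_or_pos n with h | h
          · subst h
            rw [Nat.cast_zero, ENNReal.inv_zero, ENNReal.mul_top]
            · exact le_top
            · rw [Ne, Nat.cast_eq_zero]; omega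
          · rw [← div_eq_mul_inv, ENNReal.le_div_iff_mul_le
              (Or.inl (by rw [Ne, Nat.cast_eq_zero]; omega)) (Or.inl (ENNReal.natCast_ne_top n)),
              one_mul]
            exact_mod_cast hn
        rw [this]; exact bot_le
    have h4 : Tendsto (fun n : ℕ => (1 : ℝ≥0∞) - ((j + 1 : ℕ) : ℝ≥0∞) * ((n : ℕ) : ℝ≥0∞)⁻¹)
        atTop (𝓝 (1 - ((j + 1 : ℕ) : ℝ≥0∞) * 0)) := by
      refine ENNReal.Tendsto.sub tendsto_const_nhds ?_ (Or.inl ENNReal.one_ne_top)
      exact ENNReal.Tendsto.const_mul ENNReal.tendsto_inv_nat_nhds_zero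
        (Or.inr (ENNReal.natCast_ne_top _))
    rw [mul_zero, tsub_zero] at h4
    exact le_of_tendsto' h4 h3
  have hm : MeasurableSet {ω : ℕ → Vt → Vt | ∃ m, walk (ray j) ω m = tr []} := by
    have : {ω : ℕ → Vt → Vt | ∃ m, walk (ray j) ω m = tr []} =
        ⋃ m, {ω | walk (ray j) ω m = tr []} := by ext ω; simp
    rw [this]
    exact MeasurableSet.iUnion fun m => (meas_walk (ray j) m) (measurableSet_singleton _)
  exact (mem_ae_iff_prob_eq_one hm).mpr (le_antisymm prob_le_one h2)

/-- a vertex of the binary tree other than the root -/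
def inT (v : Vt) : Bool := match v with
  | tr (_ :: _) => true
  | _ => false

/-- eventually the walk is in the binary tree -/
lemma ev_inT (x : Vt) : ∀ᵐ ω ∂(drive (srw G)), ∀ᶠ n in atTop, inT (walk x ω n) = true := by
  have h1 : ∀ᵐ ω ∂(drive (srw G)), ∀ (m j : ℕ), ∃ l, walk (ray j) (fun i => ω (m + i)) l = tr [] := by
    rw [ae_all_iff]
    intro m
    rw [ae_all_iff]
    intro j
    exact (shift_preserving (srw G) m).quasiMeasurePreserving.ae (visit_root j)
  filter_upwards [h1, finite_visits x] with ω hω1 hω2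
  rw [eventually_atTop] at hω2 ⊢
  obtain ⟨n0, hn0⟩ := hω2
  refine ⟨n0, fun n hn => ?_⟩
  rcases hw : walk x ω n with (_ | ⟨b, l⟩) | j
  · exact absurd hw (hn0 n hn)
  · rfl
  · exfalso
    obtain ⟨l, hl⟩ := hω1 n j
    apply hn0 (n + l) (by omega)
    rw [walk_add, hw, hl]

/-- update counting the steps towards the root in the binary tree -/
def updD (w : Vt × ℕ) (y : Vt) : Vt × ℕ :=
  (y, if inT w.1 = true ∧ y = par w.1 then w.2 + 1 else w.2)

/-- number of steps towards the root in the binary tree -/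
def downs (x : Vt) (ω : ℕ → Vt → Vt) (n : ℕ) : ℕ := (aug (Prod.fst) updD (x, 0) ω n).2

lemma downs_fst (x : Vt) (ω : ℕ → Vt → Vt) (n : ℕ) :
    (aug (Prod.fst) updD (x, 0) ω n).1 = walk x ω n := by
  induction n with
  | zero => rfl
  | succ n ih => rw [aug, walk, ← ih]; rfl

lemma downs_succ (x : Vt) (ω : ℕ → Vt → Vt) (n : ℕ) :
    downs x ω (n + 1) = if inT (walk x ω n) = true ∧ walk x ω (n + 1) = par (walk x ω n) then
      downs x ω n + 1 else downs x ω n := by
  unfold downs
  rw [aug, walk, ← downs_fst]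
  rfl

lemma downs_exp (x : Vt) (n : ℕ) :
    ∫⁻ ω, ((2 ^ downs x ω n : NNReal) : ℝ≥0∞) ∂(drive (srw G)) ≤
      ((4 / 3 : NNReal) : ℝ≥0∞) ^ n := by
  have h := aug_super (srw G) (Prod.fst : Vt × ℕ → Vt) updD (x, 0)
    (fun w => ((2 ^ w.2 : NNReal) : ℝ≥0∞)) ((4 / 3 : NNReal) : ℝ≥0∞) (by
      rintro ⟨v, c⟩
      have h43 : (1 : NNReal) ≤ 4 / 3 := by
        rw [← NNReal.coe_le_coe]; push_cast; norm_num
      have triv : inT v = false → ∑' y, srw G v y * ((2 ^ (updD (v, c) y).2 : NNReal) : ℝ≥0∞) ≤
          ((4 / 3 : NNReal) : ℝ≥0∞) * ((2 ^ c : NNReal) : ℝ≥0∞) := by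
        intro hv
        have h1 : ∀ y, (updD (v, c) y).2 = c := by
          intro y; simp [updD, hv]
        simp only [h1]
        rw [ENNReal.tsum_mul_right, PMF.tsum_coe]
        gcongr
        exact_mod_cast h43
      rcases v with (_ | ⟨b, l⟩) | j
      · exact triv rfl
      · have := sum_tr b l (fun y => 2 ^ (updD (tr (b :: l), c) y).2)
        simp only at this ⊢
        rw [this, ← ENNReal.coe_mul, ENNReal.coe_le_coe]
        have hl : ∀ d : Bool, d :: b :: l ≠ l := by
          intro d h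
          have := congrArg List.length h
          simp only [List.length_cons] at this
          omega
        simp only [updD, inT, par, true_and, tr.injEq, hl, if_true, if_false]
        rw [← NNReal.coe_le_coe]
        push_cast
        rw [pow_succ]
        linarith
      · exact triv rfl) n
  simpa [downs] using h

lemma ev_downs (x : Vt) : ∀ᵐ ω ∂(drive (srw G)), ∀ᶠ n in atTop, 7 * downs x ω n < 3 * n := by
  set r : NNReal := 269 / 200 with hr
  set a : NNReal := 4 / 3 with ha
  have hr7 : r ^ 7 ≤ 8 := by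
    rw [← NNReal.coe_le_coe]; push_cast [hr]; norm_num
  have hr0 : r ≠ 0 := by
    rw [hr, Ne, ← NNReal.coe_inj]; push_cast; norm_num
  have har : a / r < 1 := by
    rw [← NNReal.coe_lt_coe]; push_cast [hr, ha]; norm_num
  have h1 : ∀ n, drive (srw G) {ω | 3 * n ≤ 7 * downs x ω n} ≤ ((a / r : NNReal) : ℝ≥0∞) ^ n := by
    intro n
    have hsub : {ω | 3 * n ≤ 7 * downs x ω n} ⊆
        {ω : ℕ → Vt → Vt | ((r ^ n : NNReal) : ℝ≥0∞) ≤ ((2 ^ downs x ω n : NNReal) : ℝ≥0∞)} := by
      intro ω hω
      simp only [Set.mem_ofPred_eq, ENNReal.coe_le_coe] at hω ⊢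
      have h2 : (r ^ n) ^ 7 ≤ (2 ^ downs x ω n) ^ 7 := by
        calc (r ^ n) ^ 7 = (r ^ 7) ^ n := by ring
          _ ≤ 8 ^ n := by gcongr
          _ = 2 ^ (3 * n) := by rw [pow_mul]; norm_num
          _ ≤ 2 ^ (7 * downs x ω n) := by
              apply pow_le_pow_right₀ _ hω
              rw [← NNReal.coe_le_coe]; push_cast; norm_num
          _ = (2 ^ downs x ω n) ^ 7 := by ring
      exact le_of_pow_le_pow_left₀ (by norm_num) (by positivity) h2
    have hm : Measurable (fun ω : ℕ → Vt → Vt => ((2 ^ downs x ω n : NNReal) : ℝ≥0∞)) := by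
      have h3 : Measurable (fun w : Vt × ℕ => ((2 ^ w.2 : NNReal) : ℝ≥0∞)) :=
        Measurable.of_discrete
      exact h3.comp (meas_aug' _ _ (x, 0) n)
    have hrn : ((r ^ n : NNReal) : ℝ≥0∞) ≠ 0 := by
      rw [Ne, ENNReal.coe_eq_zero]; exact pow_ne_zero _ hr0
    calc drive (srw G) {ω | 3 * n ≤ 7 * downs x ω n}
        ≤ _ := measure_mono hsub
      _ ≤ (∫⁻ ω, ((2 ^ downs x ω n : NNReal) : ℝ≥0∞) ∂(drive (srw G))) /
            ((r ^ n : NNReal) : ℝ≥0∞) :=
          meas_ge_le_lintegral_div hm.aemeasurable hrn ENNReal.coe_ne_top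
      _ ≤ ((a : NNReal) : ℝ≥0∞) ^ n / ((r ^ n : NNReal) : ℝ≥0∞) := by
          gcongr
          exact downs_exp x n
      _ = ((a / r : NNReal) : ℝ≥0∞) ^ n := by
          rw [ENNReal.coe_div hr0, ENNReal.coe_pow, div_eq_mul_inv, div_eq_mul_inv, mul_pow,
            ENNReal.inv_pow]
  have h2 : ∑' n, drive (srw G) {ω | 3 * n ≤ 7 * downs x ω n} ≠ ⊤ := by
    refine ne_top_of_le_ne_top ?_ (ENNReal.tsum_le_tsum h1)
    rw [ENNReal.tsum_geometric, Ne, ENNReal.inv_eq_top, tsub_eq_zero_iff_le, not_le]
    exact_mod_cast har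
  have h4 := measure_setOfPred_frequently_eq_zero (p := fun n ω => 3 * n ≤ 7 * downs x ω n) h2
  rw [ae_iff]
  refine measure_mono_null ?_ h4
  intro ω hω
  simp only [Set.mem_ofPred_eq, not_eventually, not_lt] at hω ⊢
  exact hω

lemma dep_nb {v y : Vt} (hy : y ∈ nb v) : dep v ≤ dep y + 1 ∧
    (inT v = true → y ≠ par v → dep y = dep v + 1) := by
  rcases v with (_ | ⟨b, l⟩) | (_ | j)
  · simp [dep, inT]
  · simp only [nb, Finset.mem_insert, Finset.mem_singleton] at hy
    rcases hy with rfl | rfl | rfl <;> simp [dep, par]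
  · simp [dep, inT]
  · simp only [nb, Finset.mem_insert, Finset.mem_singleton] at hy
    rcases hy with rfl | rfl <;> simp [dep, inT] 

lemma dep_lower (x : Vt) (ω : ℕ → Vt → Vt) (hω : ∀ n y, ω n y ∈ nb y) (n : ℕ) :
    n ≤ dep (walk x ω n) + 2 * downs x ω n +
      2 * Nat.count (fun m => ¬ inT (walk x ω m) = true) n := by
  induction n with
  | zero => simp
  | succ n ih =>
    rw [downs_succ, Nat.count_succ]
    have h1 : walk x ω (n + 1) ∈ nb (walk x ω n) := hω n _
    obtain ⟨h2, h3⟩ := dep_nb h1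
    by_cases h4 : inT (walk x ω n) = true
    · by_cases h5 : walk x ω (n + 1) = par (walk x ω n)
      · rw [if_pos ⟨h4, h5⟩]
        omega
      · have h6 := h3 h4 h5
        rw [if_neg (fun h => h5 h.2)]
        omega
    · rw [if_pos h4, if_neg (fun h => h4 h.1)]
      omega

lemma speed (x : Vt) : ∀ᵐ ω ∂(drive (srw G)),
    (8 : ℝ≥0∞)⁻¹ ≤ liminf (fun n : ℕ => ((G.dist (tr []) (walk x ω n) : ℕ) : ℝ≥0∞) / (n : ℝ≥0∞))
      atTop := by
  filter_upwards [ev_inT x, ev_downs x, ae_nb] with ω h1 h2 h3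
  refine le_liminf_of_le (by isBoundedDefault) ?_
  rw [eventually_atTop] at h1 h2 ⊢
  obtain ⟨n1, h1⟩ := h1
  obtain ⟨n2, h2⟩ := h2
  refine ⟨n1 * 112 + n2 + 1, fun n hn => ?_⟩
  have h4 := h2 n (by omega)
  have h5 := dep_lower x ω h3 n
  have h6 : Nat.count (fun m => ¬ inT (walk x ω m) = true) n ≤ n1 := by
    obtain ⟨k, rfl⟩ : ∃ k, n = n1 + k := ⟨n - n1, by omega⟩
    rw [Nat.count_add]
    have h7 : Nat.count (fun m => ¬ inT (walk x ω (n1 + m)) = true) k = 0 := by
      rw [Nat.count_eq_card_filter_range, Finset.card_eq_zero, Finset.filter_eq_empty_iff]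
      intro m _
      rw [not_not]
      exact h1 _ (by omega)
    rw [h7, add_zero]
    exact Nat.count_le _
  rw [dist_eq]
  have hn0 : (n : ℝ≥0∞) ≠ 0 := by rw [Ne, Nat.cast_eq_zero]; omega
  rw [ENNReal.le_div_iff_mul_le (Or.inl hn0) (Or.inl (ENNReal.natCast_ne_top n)), mul_comm,
    ← div_eq_mul_inv, ENNReal.div_le_iff_le_mul (Or.inl (by norm_num)) (Or.inl (by norm_num))]
  have h8 : n ≤ dep (walk x ω n) * 8 := by omega
  exact_mod_cast h8

end Visits

section Frogs

open Vt

variable (lam : NNReal)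

/-- the law of the randomness of one vertex -/
noncomputable def pack : Measure (ℕ × (ℕ → ℕ → Vt → Vt)) :=
  (poissonMeasure lam).prod (Measure.infinitePi (fun _ : ℕ => drive (srw G)))

instance : IsProbabilityMeasure (pack lam) := by unfold pack; infer_instance

lemma frogLaw_eq : frogLaw G lam = Measure.infinitePi (fun _ : Vt => pack lam) := rfl

instance : IsProbabilityMeasure (frogLaw G lam) := by rw [frogLaw_eq]; infer_instance

/-- probability that there is at least one particle -/
noncomputable def q0 : ℝ≥0∞ := poissonMeasure lam {n | 1 ≤ n}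

variable {lam}

lemma q0_pos (h : 0 < lam) : 0 < q0 lam := by
  unfold q0
  have h1 : (poissonMeasure lam) {1} ≤ poissonMeasure lam {n | 1 ≤ n} :=
    measure_mono (by intro n hn; simp at hn; simp [hn])
  refine lt_of_lt_of_le ?_ h1
  rw [poissonMeasure_singleton]
  exact ENNReal.ofReal_pos.mpr (by positivity)

/-- particle 0 of `v` exists and its driver is in `A` -/
def good (A : Set (ℕ → Vt → Vt)) : Set (ℕ × (ℕ → ℕ → Vt → Vt)) := {q | 1 ≤ q.1 ∧ q.2 0 ∈ A}

lemma meas_good {A : Set (ℕ → Vt → Vt)} (hA : MeasurableSet A) : MeasurableSet (good A) := by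
  have h1 : MeasurableSet {n : ℕ | 1 ≤ n} := MeasurableSet.of_discrete
  have h2 : Measurable (fun q : ℕ × (ℕ → ℕ → Vt → Vt) => q.2 0) :=
    (measurable_pi_apply 0).comp measurable_snd
  exact (measurable_fst h1).inter (h2 hA)

lemma pack_good {A : Set (ℕ → Vt → Vt)} (hA : MeasurableSet A) :
    pack lam (good A) = q0 lam * drive (srw G) A := by
  have h1 : good A = {n : ℕ | 1 ≤ n} ×ˢ {f : ℕ → ℕ → Vt → Vt | f 0 ∈ A} := by
    ext q; simp [good]
  rw [h1, pack, Measure.prod_prod, q0]
  congr 1
  exact (measurePreserving_eval_infinitePi (fun _ : ℕ => drive (srw G)) 0).measure_preimage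
    hA.nullMeasurableSet

lemma meas_visit (x y : Vt) : MeasurableSet {ω : ℕ → Vt → Vt | ∃ m, walk x ω m = y} := by
  have : {ω : ℕ → Vt → Vt | ∃ m, walk x ω m = y} = ⋃ m, {ω | walk x ω m = y} := by
    ext ω; simp
  rw [this]
  exact MeasurableSet.iUnion fun m => (meas_walk x m) (measurableSet_singleton _)

/-- the packages of `ray i` such that its particle 0 exists and visits `ray M` -/
def hitS (M i : ℕ) : Set (ℕ × (ℕ → ℕ → Vt → Vt)) := good {ω | ∃ m, walk (ray i) ω m = ray M}

lemma hitS_prob {M i : ℕ} (hi : i < M) :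
    q0 lam * (((i + 1 : ℕ) : ℝ≥0∞) / ((M + 1 : ℕ) : ℝ≥0∞)) ≤ pack lam (hitS M i) := by
  rw [hitS, pack_good (meas_visit _ _)]
  gcongr
  have := visit_up (M + 1) i (by omega)
  simpa using this

/-- no particle 0 of `ray i`, `i < M`, visits `ray M` -/
def badS (M : ℕ) : Set (Vt → ℕ × (ℕ → ℕ → Vt → Vt)) := {ω | ∀ i < M, ω (ray i) ∉ hitS M i}

/-- the real bound for the bad events -/
lemma prod_bound (q : ℝ) (M : ℕ) (p : ℕ → ℝ) (hp1 : ∀ i < M, p i ≤ 1)
    (hp : ∀ i < M, q * ((i + 1) / (M + 1)) ≤ p i) :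
    ∏ i ∈ Finset.range M, (1 - p i) ≤ Real.exp (-(q / 2)) ^ M := by
  have h1 : ∏ i ∈ Finset.range M, (1 - p i) ≤
      ∏ i ∈ Finset.range M, Real.exp (-(q * ((i + 1) / (M + 1)))) := by
    refine Finset.prod_le_prod (fun i hi => ?_) (fun i hi => ?_)
    · have := hp1 i (Finset.mem_range.mp hi); linarith
    · have h2 := hp i (Finset.mem_range.mp hi)
      have h3 := Real.add_one_le_exp (-(q * (((i : ℝ) + 1) / (M + 1))))
      linarith
  refine h1.trans (le_of_eq ?_)
  rw [← Real.exp_sum, ← Real.exp_nat_mul]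
  congr 1
  rw [Finset.sum_neg_distrib, ← Finset.mul_sum, ← Finset.sum_div]
  have h2 : ∑ i ∈ Finset.range M, ((i : ℝ) + 1) = M * (M + 1) / 2 := by
    clear hp hp1 h1
    induction M with
    | zero => simp
    | succ M ih => rw [Finset.sum_range_succ, ih]; push_cast; ring
  rw [h2]
  have : ((M : ℝ) + 1) ≠ 0 := by positivity
  field_simp

lemma pack_ne_top (A : Set (ℕ × (ℕ → ℕ → Vt → Vt))) : pack lam A ≠ ⊤ := measure_ne_top _ _

lemma meas_hitS (M i : ℕ) : MeasurableSet (hitS M i) := meas_good (meas_visit _ _)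

/-- the root particle walks straight along the ray up to `ray (J - 1)` -/
def straight (J : ℕ) : Set (ℕ × (ℕ → ℕ → Vt → Vt)) :=
  {q | ∀ n < J, walk (tr []) (q.2 0) (n + 1) = ray n}

lemma meas_straight (J : ℕ) : MeasurableSet (straight J) := by
  have h0 : Measurable (fun q : ℕ × (ℕ → ℕ → Vt → Vt) => q.2 0) :=
    (measurable_pi_apply 0).comp measurable_snd
  have : straight J = ⋂ n, ⋂ (_ : n < J), {q | walk (tr []) (q.2 0) (n + 1) = ray n} := by
    ext q; simp [straight]
  rw [this]
  exact MeasurableSet.iInter fun n => MeasurableSet.iInter fun _ =>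
    ((meas_walk (tr []) (n + 1)).comp h0) (measurableSet_singleton _)

lemma straight_pos (J : ℕ) : pack lam (straight J) ≠ 0 := by
  have h1 : (Set.univ : Set ℕ) ×ˢ {f : ℕ → ℕ → Vt → Vt | f 0 ∈ {ω : ℕ → Vt → Vt |
      ω 0 (tr []) = ray 0 ∧ ∀ n < J, ω (n + 1) (ray n) = ray (n + 1)}} ⊆ straight J := by
    rintro ⟨k, f⟩ ⟨_, h2, h3⟩
    intro n
    induction n with
    | zero => intro _; exact h2
    | succ n ih =>
      intro hn
      have h4 := ih (by omega)
      rw [walk]
      simp only at h4 ⊢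
      rw [h4]
      exact h3 n (by omega)
  intro h
  have h2 := measure_mono_null h1 h
  have hm : MeasurableSet {ω : ℕ → Vt → Vt |
      ω 0 (tr []) = ray 0 ∧ ∀ n < J, ω (n + 1) (ray n) = ray (n + 1)} := by
    have e : {ω : ℕ → Vt → Vt |
      ω 0 (tr []) = ray 0 ∧ ∀ n < J, ω (n + 1) (ray n) = ray (n + 1)} =
        {ω : ℕ → Vt → Vt | ω 0 (tr []) = ray 0} ∩ ⋂ n, ⋂ (_ : n < J),
          {ω : ℕ → Vt → Vt | ω (n + 1) (ray n) = ray (n + 1)} := by
      ext ω; simp
    rw [e]
    have hev : ∀ n v, Measurable (fun ω : ℕ → Vt → Vt => ω n v) := fun n v =>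
      (measurable_pi_apply v).comp (measurable_pi_apply n)
    exact ((hev 0 (tr [])) (measurableSet_singleton _)).inter
      (MeasurableSet.iInter fun n => MeasurableSet.iInter fun _ =>
        (hev (n + 1) (ray n)) (measurableSet_singleton _))
  rw [pack, Measure.prod_prod, measure_univ, one_mul] at h2
  have h3 := (measurePreserving_eval_infinitePi (fun _ : ℕ => drive (srw G)) 0).measure_preimage
    hm.nullMeasurableSet
  have h4 : drive (srw G) {ω : ℕ → Vt → Vt |
      ω 0 (tr []) = ray 0 ∧ ∀ n < J, ω (n + 1) (ray n) = ray (n + 1)} = 0 := by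
    rw [← h3]; exact h2
  -- as a cylinder
  set y : ℕ → Vt := fun n => match n with
    | 0 => tr []
    | n + 1 => ray n with hy
  have h5 : {ω : ℕ → Vt → Vt |
      ω 0 (tr []) = ray 0 ∧ ∀ n < J, ω (n + 1) (ray n) = ray (n + 1)} =
      Set.pi (Finset.range (J + 1) : Finset ℕ) (fun n => {g : Vt → Vt | g (y n) = ray n}) := by
    ext ω
    simp only [Set.mem_ofPred_eq, Set.mem_pi, Finset.coe_range, Set.mem_Iio]
    constructor
    · rintro ⟨ha, hb⟩ n hn
      rcases n with _ | n
      · exact ha
      · exact hb n (by omega)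
    · intro h
      exact ⟨h 0 (by omega), fun n hn => h (n + 1) (by omega)⟩
  have hmy : ∀ n ∈ Finset.range (J + 1), MeasurableSet {g : Vt → Vt | g (y n) = ray n} := by
    intro n _
    have he : Measurable (fun g : Vt → Vt => g (y n)) := measurable_pi_apply (y n)
    exact he (measurableSet_singleton (ray n))
  rw [h5, drive, Measure.infinitePi_pi _ hmy] at h4
  rw [Finset.prod_eq_zero_iff] at h4
  obtain ⟨n, hn, h6⟩ := h4
  have h7 := (measurePreserving_eval_infinitePi (fun x : Vt => (srw G x).toMeasure)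
    (y n)).measure_preimage (measurableSet_singleton (ray n)).nullMeasurableSet
  have h8 : mapLaw (srw G) {g : Vt → Vt | g (y n) = ray n} = (srw G (y n)).toMeasure {ray n} := by
    rw [← h7]; rfl
  rw [h8, PMF.toMeasure_apply_singleton _ _ (measurableSet_singleton _), srw_apply] at h6
  have h9 : ray n ∈ nb (y n) := by
    rcases n with _ | (_ | n) <;> simp [hy, nb]
  rw [if_pos h9] at h6
  simp at h6

lemma joint_bound (J M : ℕ) :
    frogLaw G lam ({ω | ω (tr []) ∈ straight J} ∩ badS M) ≤ pack lam (straight J) *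
      (ENNReal.ofReal (Real.exp (-((q0 lam).toReal / 2)))) ^ M := by
  set t : Vt → Set (ℕ × (ℕ → ℕ → Vt → Vt)) := fun v => match v with
    | tr _ => straight J
    | ray i => (hitS M i)ᶜ with ht
  have htm : ∀ v, MeasurableSet (t v) := by
    intro v
    rcases v with l | i
    · exact meas_straight J
    · exact (meas_hitS M i).compl
  have h1 : ({ω : Vt → ℕ × (ℕ → ℕ → Vt → Vt) | ω (tr []) ∈ straight J} ∩ badS M) =
      Set.pi (insert (tr []) ((Finset.range M).image ray) : Finset Vt) t := by
    ext ω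
    simp only [Set.mem_inter_iff, Set.mem_ofPred_eq, badS, Set.mem_pi, Finset.coe_insert,
      Finset.coe_image, Finset.coe_range, Set.mem_insert_iff, Set.mem_image, Set.mem_Iio]
    constructor
    · rintro ⟨ha, hb⟩ v (rfl | ⟨i, hi, rfl⟩)
      · exact ha
      · exact hb i hi
    · intro h
      exact ⟨h _ (Or.inl rfl), fun i hi => h (ray i) (Or.inr ⟨i, hi, rfl⟩)⟩
  have hni : tr [] ∉ (Finset.range M).image ray := by simp
  rw [h1, frogLaw_eq, Measure.infinitePi_pi _ (fun v _ => htm v), Finset.prod_insert hni,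
    Finset.prod_image (fun i _ j _ h => by simpa using h)]
  gcongr
  simp only [ht]
  have hp : ∀ i, pack lam (hitS M i)ᶜ = ENNReal.ofReal (1 - (pack lam (hitS M i)).toReal) := by
    intro i
    rw [prob_compl_eq_one_sub (meas_hitS M i), ENNReal.ofReal_sub _ ENNReal.toReal_nonneg,
      ENNReal.ofReal_one, ENNReal.ofReal_toReal (pack_ne_top _)]
  have hp1 : ∀ i, (pack lam (hitS M i)).toReal ≤ 1 := by
    intro i
    rw [← ENNReal.toReal_one]
    exact ENNReal.toReal_mono ENNReal.one_ne_top prob_le_one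
  simp only [hp]
  rw [← ENNReal.ofReal_prod_of_nonneg (fun i _ => by linarith [hp1 i]),
    ← ENNReal.ofReal_pow (Real.exp_pos _).le]
  apply ENNReal.ofReal_le_ofReal
  apply prod_bound (q0 lam).toReal M _ (fun i _ => hp1 i)
  intro i hi
  have h2 := hitS_prob (lam := lam) hi
  have h3 := ENNReal.toReal_mono (pack_ne_top _) h2
  rw [ENNReal.toReal_mul, ENNReal.toReal_div, ENNReal.toReal_natCast, ENNReal.toReal_natCast] at h3
  push_cast at h3
  exact h3

lemma active_ray {ω : Vt → ℕ × (ℕ → ℕ → Vt → Vt)} {J : ℕ} (h1 : ω (tr []) ∈ straight J)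
    (h2 : ∀ M, J ≤ M → ω ∉ badS M) (M : ℕ) : Active (tr []) ω (ray M) := by
  induction M using Nat.strong_induction_on with
  | _ M ih =>
    rcases Nat.lt_or_ge M J with h | h
    · have h3 := Active.visit (o := tr []) (ω := ω) (tr []) 0 (M + 1) Active.root (by simp [num])
      rwa [h1 M h] at h3
    · have h3 := h2 M h
      simp only [badS, Set.mem_ofPred_eq, not_forall, not_not] at h3
      obtain ⟨i, hi, h4, t, ht⟩ := h3
      have h5 := Active.visit (o := tr []) (ω := ω) (ray i) 0 t (ih i hi)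
        (by simp only [num, reduceCtorEq, if_false]; exact h4)
      rwa [ht] at h5

lemma ae_return : ∀ᵐ ω ∂(frogLaw G lam), ∀ i, ∃ t, walk (ray i) ((ω (ray i)).2 0) t = tr [] := by
  rw [ae_all_iff]
  intro i
  have h1 := measurePreserving_eval_infinitePi (fun _ : Vt => pack lam) (ray i)
  have h2 : MeasurePreserving (Prod.snd) (pack lam)
      (Measure.infinitePi (fun _ : ℕ => drive (srw G))) := measurePreserving_snd
  have h3 := measurePreserving_eval_infinitePi (fun _ : ℕ => drive (srw G)) 0
  exact ((h3.comp h2).comp h1).quasiMeasurePreserving.ae (visit_root i)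

lemma ae_many (h : 0 < lam) : ∀ᵐ ω ∂(frogLaw G lam), ∀ m : ℕ, ∃ i, m ≤ i ∧ 1 ≤ (ω (ray i)).1 := by
  rw [ae_all_iff]
  intro m
  rw [ae_iff]
  have hmt : MeasurableSet {q : ℕ × (ℕ → ℕ → Vt → Vt) | ¬ 1 ≤ q.1} :=
    measurable_fst (MeasurableSet.of_discrete (s := {n : ℕ | ¬ 1 ≤ n}))
  have hp : pack lam {q : ℕ × (ℕ → ℕ → Vt → Vt) | ¬ 1 ≤ q.1} < 1 := by
    have e : {q : ℕ × (ℕ → ℕ → Vt → Vt) | ¬ 1 ≤ q.1} = {n : ℕ | 1 ≤ n}ᶜ ×ˢ Set.univ := by
      ext q; simp
    rw [e, pack, Measure.prod_prod, measure_univ, mul_one,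
      prob_compl_eq_one_sub MeasurableSet.of_discrete]
    exact ENNReal.sub_lt_self ENNReal.one_ne_top one_ne_zero (q0_pos h).ne'
  have h1 : ∀ n : ℕ, frogLaw G lam {ω | ¬ ∃ i, m ≤ i ∧ 1 ≤ (ω (ray i)).1} ≤
      (pack lam {q : ℕ × (ℕ → ℕ → Vt → Vt) | ¬ 1 ≤ q.1}) ^ n := by
    intro n
    have hsub : {ω : Vt → ℕ × (ℕ → ℕ → Vt → Vt) | ¬ ∃ i, m ≤ i ∧ 1 ≤ (ω (ray i)).1} ⊆
        Set.pi ((Finset.range n).image (fun i => ray (m + i)) : Finset Vt)
          (fun _ => {q : ℕ × (ℕ → ℕ → Vt → Vt) | ¬ 1 ≤ q.1}) := by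
      intro ω hω
      simp only [Set.mem_ofPred_eq] at hω
      push Not at hω
      intro v hv
      simp only [Finset.coe_image, Finset.coe_range, Set.mem_image, Set.mem_Iio] at hv
      obtain ⟨i, _, rfl⟩ := hv
      have := hω (m + i) (by omega)
      simp only [Set.mem_ofPred_eq, not_le]
      exact this
    refine (measure_mono hsub).trans (le_of_eq ?_)
    rw [frogLaw_eq, Measure.infinitePi_pi _ (fun v _ => hmt), Finset.prod_const,
      Finset.card_image_of_injective _ (fun i j h => by simpa using h), Finset.card_range]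
  have h2 := ENNReal.tendsto_pow_atTop_nhds_zero_of_lt_one hp
  exact le_antisymm (ge_of_tendsto' h2 h1) bot_le

lemma not_transient (h : 0 < lam) : ¬ FrogTransient G (tr []) lam := by
  intro hT
  unfold FrogTransient at hT
  set ρ : ℝ≥0∞ := ENNReal.ofReal (Real.exp (-((q0 lam).toReal / 2))) with hρ
  have hq : 0 < (q0 lam).toReal := by
    rw [ENNReal.toReal_pos_iff]
    exact ⟨q0_pos h, lt_of_le_of_lt prob_le_one ENNReal.one_lt_top⟩
  have hρ1 : ρ < 1 := by
    rw [hρ, ← ENNReal.ofReal_one, ENNReal.ofReal_lt_ofReal_iff one_pos, Real.exp_lt_one_iff]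
    linarith
  have hJ : ∃ J : ℕ, ρ ^ J * (1 - ρ)⁻¹ < 1 := by
    have h1 := ENNReal.Tendsto.mul_const (b := (1 - ρ)⁻¹)
      (ENNReal.tendsto_pow_atTop_nhds_zero_of_lt_one hρ1) (Or.inr (by
        rw [Ne, ENNReal.inv_eq_top, tsub_eq_zero_iff_le, not_le]; exact hρ1))
    rw [zero_mul] at h1
    exact (h1.eventually_lt_const zero_lt_one).exists
  obtain ⟨J, hJ⟩ := hJ
  -- the good event is null
  have hE : frogLaw G lam ({ω | ω (tr []) ∈ straight J} \ ⋃ n, badS (J + n)) = 0 := by
    have h1 : ∀ᵐ ω ∂(frogLaw G lam), ω ∉ ({ω | ω (tr []) ∈ straight J} \ ⋃ n, badS (J + n)) := by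
      filter_upwards [hT, ae_return, ae_many h] with ω hf hr hm hω
      obtain ⟨hs, hb⟩ := hω
      have hb' : ∀ M, J ≤ M → ω ∉ badS M := by
        intro M hM hbad
        apply hb
        rw [Set.mem_iUnion]
        exact ⟨M - J, by rwa [Nat.add_sub_cancel' hM]⟩
      have hact := active_ray hs hb'
      have hsub : (fun i : ℕ => ((ray i, 0) : Vt × ℕ)) '' {i | 1 ≤ (ω (ray i)).1} ⊆
          visitors (tr []) ω := by
        rintro _ ⟨i, hi, rfl⟩
        refine ⟨hact i, ?_, hr i⟩
        simp only [num, reduceCtorEq, if_false]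
        exact hi
      have hinf : {i : ℕ | 1 ≤ (ω (ray i)).1}.Infinite := by
        rw [Set.infinite_iff_exists_gt]
        intro a
        obtain ⟨i, hi1, hi2⟩ := hm (a + 1)
        exact ⟨i, hi2, by omega⟩
      have hinj : Set.InjOn (fun i : ℕ => ((ray i, 0) : Vt × ℕ)) {i | 1 ≤ (ω (ray i)).1} := by
        intro i _ j _ hij
        simpa using hij
      exact (hinf.image hinj) (hf.subset hsub)
    rw [ae_iff] at h1
    simpa only [not_not, Set.ofPred_mem_eq] using h1
  have hA : frogLaw G lam {ω | ω (tr []) ∈ straight J} = pack lam (straight J) :=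
    (measurePreserving_eval_infinitePi (fun _ : Vt => pack lam) (tr [])).measure_preimage
      (meas_straight J).nullMeasurableSet
  have hle : pack lam (straight J) ≤ pack lam (straight J) * (ρ ^ J * (1 - ρ)⁻¹) := by
    calc pack lam (straight J) = frogLaw G lam {ω | ω (tr []) ∈ straight J} := hA.symm
      _ ≤ frogLaw G lam (({ω | ω (tr []) ∈ straight J} \ ⋃ n, badS (J + n)) ∪
            ⋃ n, ({ω | ω (tr []) ∈ straight J} ∩ badS (J + n))) := by
          apply measure_mono
          intro ω hω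
          by_cases hb : ω ∈ ⋃ n, badS (J + n)
          · right
            rw [Set.mem_iUnion] at hb ⊢
            obtain ⟨n, hn⟩ := hb
            exact ⟨n, hω, hn⟩
          · left; exact ⟨hω, hb⟩
      _ ≤ 0 + ∑' n, pack lam (straight J) * ρ ^ (J + n) := by
          refine (measure_union_le _ _).trans ?_
          rw [hE]
          gcongr
          refine (measure_iUnion_le _).trans ?_
          exact ENNReal.tsum_le_tsum fun n => joint_bound J (J + n)
      _ = pack lam (straight J) * (ρ ^ J * (1 - ρ)⁻¹) := by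
          rw [zero_add, ENNReal.tsum_mul_left]
          simp only [pow_add]
          rw [ENNReal.tsum_mul_left, ENNReal.tsum_geometric]
  have hlt : pack lam (straight J) * (ρ ^ J * (1 - ρ)⁻¹) < pack lam (straight J) * 1 :=
    ENNReal.mul_lt_mul_right (straight_pos J) (pack_ne_top _) hJ
  rw [mul_one] at hlt
  exact absurd hle (not_le.mpr hlt)

end Frogs

/-- There is a tree with degrees at most three on which simple random walk has a positive speed
(uniformly in the starting vertex), and for which the frog model is transient for no positive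
`lam`. -/
theorem result : ∃ (V : Type) (_ : MeasurableSpace V) (_ : DiscreteMeasurableSpace V)
    (G : SimpleGraph V) (_ : G.LocallyFinite) (o : V),
    Infinite V ∧ G.IsTree ∧ (∀ v, G.degree v ≤ 3) ∧
    (∃ c : ℝ≥0∞, 0 < c ∧ ∀ x : V, ∀ᵐ ω ∂(drive (srw G)),
      c ≤ liminf (fun n : ℕ => ((G.dist o (walk x ω n) : ℕ) : ℝ≥0∞) / (n : ℝ≥0∞)) atTop) ∧
    ∀ lam : NNReal, 0 < lam → ¬ FrogTransient G o lam := by
  refine ⟨Vt, inferInstance, inferInstance, G, inferInstance, Vt.tr [], inferInstance, isTree,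
    ?_, ⟨8⁻¹, by simp, speed⟩, fun lam h => not_transient h⟩
  intro v
  rw [← SimpleGraph.card_neighborFinset_eq_degree, nbF]
  rcases v with (_ | ⟨b, l⟩) | (_ | j)
  · exact Finset.card_le_three
  · exact Finset.card_le_three
  · exact Finset.card_le_two.trans (by norm_num)
  · exact Finset.card_le_two.trans (by norm_num)

end Pool.Agent.Results.MP_32e6ae_pr.NoTransientRegime
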